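import Pool.Agent.Helper40_FLX.Lin
import Pool.Agent.Common_Brouwer.Schauder

/-!
# COR: the core existence theorem
-/

set_option autoImplicit false

open scoped InnerProductSpace Topology ContDiff Manifold NNReal
open MeasureTheory Filter Set

noncomputable section

namespace Pool.Agent.FLX.H40

open Pool.Agent.Helper42_Paneitz Pool.Agent.Helper82_Vir Pool.Agent.FLX

theorem norm_integral_smul_le {f : S4 → ℝ} (hf : Continuous f) :
    ‖∫ y : S4, f y • (y : E5) ∂sig‖ ≤ √msig * N2 f := by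
  have h1 : ‖∫ y : S4, f y • (y : E5) ∂sig‖ ≤ ∫ y : S4, |f y| ∂sig := by
    refine (norm_integral_le_integral_norm _).trans (le_of_eq ?_)
    congr 1
    ext y
    rw [norm_smul, S4_norm, mul_one, Real.norm_eq_abs]
  have h2 := cs hf.abs (continuous_const (y := (1 : ℝ)))
  simp only [mul_one] at h2
  have h3 : N2 (fun _ : S4 => (1 : ℝ)) = √msig := by
    unfold N2
    simp only [one_pow]
    rw [integral_const_sig, mul_one]
  have h4 : N2 (fun x => |f x|) = N2 f := by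
    unfold N2
    simp only [sq_abs]
  rw [h3, h4] at h2
  calc ‖∫ y : S4, f y • (y : E5) ∂sig‖ ≤ ∫ y : S4, |f y| ∂sig := h1
    _ ≤ |∫ y : S4, |f y| ∂sig| := le_abs_self _
    _ ≤ N2 f * √msig := h2
    _ = √msig * N2 f := mul_comm _ _

theorem N2_smul {c : ℝ} (hc : 0 ≤ c) (f : S4 → ℝ) : N2 (fun x => c * f x) = c * N2 f := by
  unfold N2
  have h1 : ∫ y, (c * f y) ^ 2 ∂sig = c ^ 2 * ∫ y, f y ^ 2 ∂sig := by
    rw [← integral_const_mul]
    congr 1
    ext y
    ring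
  rw [h1, Real.sqrt_mul (sq_nonneg c), Real.sqrt_sq hc]

/-- Minkowski -/
theorem N2_add {f g : S4 → ℝ} (hf : Continuous f) (hg : Continuous g) :
    N2 (fun x => f x + g x) ≤ N2 f + N2 g := by
  refine abs_le_of_sq_le_sq' ?_ (add_nonneg (N2_nonneg _) (N2_nonneg _)) |>.2
  have h1 := (abs_le.1 (cs hf hg)).2
  have h2 : N2 (fun x => f x + g x) ^ 2 = N2 f ^ 2 + 2 * (∫ y, f y * g y ∂sig) + N2 g ^ 2 := by
    rw [N2_sq, N2_sq, N2_sq, ← integral_const_mul, ← integral_add, ← integral_add]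
    · congr 1
      ext y
      ring
    · exact (integrable_cont (hf.pow 2)).add ((integrable_cont (hf.mul hg)).const_mul _)
    · exact integrable_cont (hg.pow 2)
    · exact integrable_cont (hf.pow 2)
    · exact (integrable_cont (hf.mul hg)).const_mul _
  rw [h2]
  nlinarith

/-! ### the linear map and its inverse -/

/-- the linear map -/
def Mlin (κ : ℝ) (p b : E5) : E5 :=
  -(κ * ⟪p, b⟫_ℝ) • p + (κ / 4) • (b - ⟪p, b⟫_ℝ • p)

/-- its inverse -/
def Minv (κ : ℝ) (p v : E5) : E5 :=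
  -(κ⁻¹ * ⟪p, v⟫_ℝ) • p + (4 / κ) • (v - ⟪p, v⟫_ℝ • p)

theorem inner_perp {p : E5} (hp : ‖p‖ = 1) (b : E5) : ⟪p, b - ⟪p, b⟫_ℝ • p⟫_ℝ = 0 := by
  rw [inner_sub_right, real_inner_smul_right, real_inner_self_eq_norm_sq, hp]
  ring

theorem inner_self_one {p : E5} (hp : ‖p‖ = 1) : ⟪p, p⟫_ℝ = 1 := by
  rw [real_inner_self_eq_norm_sq, hp]
  norm_num

theorem Minv_Mlin {κ : ℝ} (hκ : κ ≠ 0) {p : E5} (hp : ‖p‖ = 1) (b : E5) :
    Minv κ p (Mlin κ p b) = b := by
  have h1 : ⟪p, Mlin κ p b⟫_ℝ = -(κ * ⟪p, b⟫_ℝ) := by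
    unfold Mlin
    rw [inner_add_right, real_inner_smul_right, real_inner_smul_right, inner_self_one hp,
      inner_perp hp]
    ring
  unfold Minv
  rw [h1]
  unfold Mlin
  have h2 : -(κ * ⟪p, b⟫_ℝ) • p + (κ / 4) • (b - ⟪p, b⟫_ℝ • p) - -(κ * ⟪p, b⟫_ℝ) • p =
      (κ / 4) • (b - ⟪p, b⟫_ℝ • p) := by abel
  rw [h2, smul_smul]
  have h3 : 4 / κ * (κ / 4) = 1 := by field_simp
  have h4 : -(κ⁻¹ * -(κ * ⟪p, b⟫_ℝ)) = ⟪p, b⟫_ℝ := by field_simp
  rw [h3, h4, one_smul]
  abel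

theorem Minv_sub (κ : ℝ) (p v w : E5) : Minv κ p (v - w) = Minv κ p v - Minv κ p w := by
  unfold Minv
  rw [inner_sub_right]
  module

theorem norm_Minv_le {κ : ℝ} (hκ : 0 < κ) {p : E5} (hp : ‖p‖ = 1) (v : E5) :
    ‖Minv κ p v‖ ≤ 9 / κ * ‖v‖ := by
  have h0 : |⟪p, v⟫_ℝ| ≤ ‖v‖ := by
    have := abs_real_inner_le_norm p v
    rwa [hp, one_mul] at this
  have h1 : ‖-(κ⁻¹ * ⟪p, v⟫_ℝ) • p‖ ≤ κ⁻¹ * ‖v‖ := by
    rw [norm_smul, hp, mul_one, norm_neg, norm_mul, Real.norm_of_nonneg (inv_pos.2 hκ).le,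
      Real.norm_eq_abs]
    exact mul_le_mul_of_nonneg_left h0 (inv_pos.2 hκ).le
  have h2 : ‖(4 / κ) • (v - ⟪p, v⟫_ℝ • p)‖ ≤ 4 / κ * (‖v‖ + ‖v‖) := by
    rw [norm_smul, Real.norm_of_nonneg (by positivity : (0 : ℝ) ≤ 4 / κ)]
    refine mul_le_mul_of_nonneg_left ?_ (by positivity)
    refine (norm_sub_le _ _).trans ?_
    rw [norm_smul, hp, mul_one, Real.norm_eq_abs]
    linarith
  calc ‖Minv κ p v‖ ≤ ‖-(κ⁻¹ * ⟪p, v⟫_ℝ) • p‖ + ‖(4 / κ) • (v - ⟪p, v⟫_ℝ • p)‖ :=
        norm_add_le _ _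
    _ ≤ κ⁻¹ * ‖v‖ + 4 / κ * (‖v‖ + ‖v‖) := add_le_add h1 h2
    _ = 9 / κ * ‖v‖ := by ring

theorem eq_zero_of_Minv {κ : ℝ} (hκ : κ ≠ 0) {p : E5} (hp : ‖p‖ = 1) {v : E5}
    (h : Minv κ p v = 0) : v = 0 := by
  have h1 : ⟪p, Minv κ p v⟫_ℝ = -(κ⁻¹ * ⟪p, v⟫_ℝ) := by
    unfold Minv
    rw [inner_add_right, real_inner_smul_right, real_inner_smul_right, inner_self_one hp,
      inner_perp hp]
    ring
  rw [h, inner_zero_right] at h1
  have h2 : ⟪p, v⟫_ℝ = 0 := by
    have : κ⁻¹ * ⟪p, v⟫_ℝ = 0 := by linarith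
    rcases mul_eq_zero.1 this with h3 | h3
    · exact absurd h3 (inv_ne_zero hκ)
    · exact h3
  unfold Minv at h
  rw [h2] at h
  simp only [mul_zero, neg_zero, zero_smul, sub_zero, zero_add] at h
  rcases smul_eq_zero.1 h with h3 | h3
  · exact absurd h3 (div_ne_zero (by norm_num) hκ)
  · exact h3

theorem continuous_Minv (κ : ℝ) (p : E5) : Continuous (Minv κ p) := by
  unfold Minv
  fun_prop

/-! ### from the fixed point to the integral equation -/

theorem finish (hker : KerStmt) (hrea : ReaStmt) (hxis : XisStmt) (hsym : SymStmt)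
    {q h : S4 → ℝ} (hq : Continuous q) (hh : Continuous h)
    (heq : ∀ x, h x = Aop h x + K (Nn q h) x - avg (Nn q h) / 24)
    (hB : ∫ y : S4, Nn q h y • (y : E5) ∂sig = 0) : IE (fun x => 6 + q x) h := by
  have hell := hker.1
  obtain ⟨hx1, hx2, hx3⟩ := hxis
  have hNc := continuous_Nn hq hh
  have hKh : Continuous (K h) := cont_of_ck (hrea h hh)
  have hKN : Continuous (K (Nn q h)) := cont_of_ck (hrea _ hNc)
  have hlin : ∀ v : E5, Continuous fun y : S4 => ⟪v, (y : E5)⟫_ℝ := fun v =>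
    continuous_const.inner continuous_subtype_val
  -- the first moments of `h` vanish
  have hmom : ∀ v : E5, ∫ y : S4, h y * ⟪v, (y : E5)⟫_ℝ ∂sig = 0 := by
    intro v
    set V : E5 := ∫ y : S4, h y • (y : E5) ∂sig with hV
    have hVx : ∀ x : E5, ⟪x, V⟫_ℝ = ∫ y : S4, h y * ⟪x, (y : E5)⟫_ℝ ∂sig := fun x =>
      inner_integral_smul hh x
    have h1 : ∀ x : S4, h x * ⟪v, (x : E5)⟫_ℝ =
        (24 * (K h x * ⟪v, (x : E5)⟫_ℝ) -
          5 / msig * (⟪v, (x : E5)⟫_ℝ * ⟪V, (x : E5)⟫_ℝ)) +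
        (K (Nn q h) x * ⟪v, (x : E5)⟫_ℝ - avg (Nn q h) / 24 * ⟪v, (x : E5)⟫_ℝ) := by
      intro x
      have h2 : Aop h x = 24 * K h x - 5 / msig * ⟪V, (x : E5)⟫_ℝ := by
        unfold Aop
        rw [real_inner_comm (x : E5) V, hVx]
        congr 2
        refine integral_congr_ae (Eventually.of_forall fun y => ?_)
        show ⟪(x : E5), (y : E5)⟫_ℝ * h y = h y * ⟪(x : E5), (y : E5)⟫_ℝ
        ring
      rw [heq x, h2]
      ring
    have i1 : Integrable (fun x : S4 => K h x * ⟪v, (x : E5)⟫_ℝ) sig :=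
      integrable_cont (hKh.mul (hlin v))
    have i2 : Integrable (fun x : S4 => ⟪v, (x : E5)⟫_ℝ * ⟪V, (x : E5)⟫_ℝ) sig :=
      integrable_cont ((hlin v).mul (hlin V))
    have i3 : Integrable (fun x : S4 => K (Nn q h) x * ⟪v, (x : E5)⟫_ℝ) sig :=
      integrable_cont (hKN.mul (hlin v))
    have i4 : Integrable (fun x : S4 => ⟪v, (x : E5)⟫_ℝ) sig := integrable_cont (hlin v)
    have h3 : ∫ x : S4, h x * ⟪v, (x : E5)⟫_ℝ ∂sig =
        (24 * (∫ x : S4, K h x * ⟪v, (x : E5)⟫_ℝ ∂sig) -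
          5 / msig * ∫ x : S4, ⟪v, (x : E5)⟫_ℝ * ⟪V, (x : E5)⟫_ℝ ∂sig) +
        ((∫ x : S4, K (Nn q h) x * ⟪v, (x : E5)⟫_ℝ ∂sig) -
          avg (Nn q h) / 24 * ∫ x : S4, ⟪v, (x : E5)⟫_ℝ ∂sig) := by
      have j1 : Integrable (fun x : S4 => 24 * (K h x * ⟪v, (x : E5)⟫_ℝ)) sig := i1.const_mul _
      have j2 : Integrable (fun x : S4 => 5 / msig * (⟪v, (x : E5)⟫_ℝ * ⟪V, (x : E5)⟫_ℝ)) sig :=
        i2.const_mul _
      have j3 : Integrable (fun x : S4 => avg (Nn q h) / 24 * ⟪v, (x : E5)⟫_ℝ) sig :=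
        i4.const_mul _
      have j4 : Integrable (fun x : S4 => 24 * (K h x * ⟪v, (x : E5)⟫_ℝ) -
          5 / msig * (⟪v, (x : E5)⟫_ℝ * ⟪V, (x : E5)⟫_ℝ)) sig := j1.sub j2
      have j5 : Integrable (fun x : S4 => K (Nn q h) x * ⟪v, (x : E5)⟫_ℝ -
          avg (Nn q h) / 24 * ⟪v, (x : E5)⟫_ℝ) sig := i3.sub j3
      rw [← integral_const_mul, ← integral_const_mul, ← integral_const_mul,
        ← integral_sub j1 j2, ← integral_sub i3 j3, ← integral_add j4 j5]
      exact integral_congr_ae (Eventually.of_forall h1)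
    rw [hx1 h hh v, hx2 v V, hx1 _ hNc v, hx3 v] at h3
    have h4 : ∫ y : S4, Nn q h y * ⟪v, (y : E5)⟫_ℝ ∂sig = 0 := by
      rw [← inner_integral_smul hNc v, hB, inner_zero_right]
    rw [h4, hVx v] at h3
    have h5 : 5 / msig * (msig / 5 * ∫ y : S4, h y * ⟪v, (y : E5)⟫_ℝ ∂sig) =
        ∫ y : S4, h y * ⟪v, (y : E5)⟫_ℝ ∂sig := by
      have := msig_pos.ne'
      field_simp
    rw [h5] at h3
    linarith
  have hA : ∀ x, Aop h x = 24 * K h x := by
    intro x
    unfold Aop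
    have h1 : ∫ y : S4, ⟪(x : E5), (y : E5)⟫_ℝ * h y ∂sig = 0 := by
      rw [← hmom (x : E5)]
      refine integral_congr_ae (Eventually.of_forall fun y => ?_)
      show ⟪(x : E5), (y : E5)⟫_ℝ * h y = h y * ⟪(x : E5), (y : E5)⟫_ℝ
      ring
    rw [h1]
    ring
  have heq2 : ∀ x, h x = 24 * K h x + K (Nn q h) x - avg (Nn q h) / 24 := by
    intro x
    rw [← hA x]
    exact heq x
  have hK0 : ∀ f : S4 → ℝ, Continuous f → avg (K f) = 0 := by
    intro f hf
    unfold avg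
    rw [(hsym f f hf hf).2, zero_div]
  have k1 : Continuous fun x => 24 * K h x := continuous_const.mul hKh
  have k2 : Continuous fun x => 24 * K h x + K (Nn q h) x := k1.add hKN
  have k3 : Continuous fun x => 24 * h x := continuous_const.mul hh
  have k4 : Continuous fun x => 24 * h x + Nn q h x := k3.add hNc
  have havg : avg h = - avg (Nn q h) / 24 := by
    have h1 : avg h = avg (fun x => (24 * K h x + K (Nn q h) x) - avg (Nn q h) / 24) := by
      congr 1
      ext x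
      exact heq2 x
    rw [avg_sub k2 continuous_const,
      avg_add k1 hKN, avg_smul, hK0 h hh, hK0 _ hNc, avg_const] at h1
    rw [h1]
    ring
  have hNn : ∀ x, (6 + q x) * Real.exp (4 * h x) = (24 * h x + Nn q h x) + 6 := by
    intro x
    unfold Nn
    ring
  refine ⟨hh, ?_, avg h, fun x => ?_⟩
  · have h1 : (fun y => (6 + q y) * Real.exp (4 * h y)) = fun y => (24 * h y + Nn q h y) + 6 :=
      funext hNn
    show avg (fun y => (6 + q y) * Real.exp (4 * h y)) = 6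
    rw [h1, avg_add k4 continuous_const, avg_add k3 hNc, avg_smul, avg_const, havg]
    ring
  · have h1 : (fun y => (6 + q y) * Real.exp (4 * h y)) = fun y => (24 * h y + Nn q h y) + 6 :=
      funext hNn
    show h x = K (fun y => (6 + q y) * Real.exp (4 * h y)) x + avg h
    rw [h1, K_add hell k4 continuous_const, K_add hell k3 hNc, K_smul, K_const, havg, heq2 x]
    ring

theorem slice_cont {X : Type*} [TopologicalSpace X] (F : E5 → S4 → X) {S : Set E5}
    (hF : ContinuousOn (fun z : E5 × S4 => F z.1 z.2) (S ×ˢ univ)) {b : E5} (hb : b ∈ S) :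
    Continuous (F b) := by
  have h1 : Continuous fun x : S4 => ((b, x) : E5 × S4) := by fun_prop
  have h2 := hF.comp_continuous h1 (fun x => ⟨hb, mem_univ _⟩)
  exact h2

theorem cor (hker : KerStmt) (hrea : ReaStmt) (hfix : FixStmt) (hxis : XisStmt)
    (hsym : SymStmt) (hexp : ExpStmt) (hl2b : L2bStmt) (hmos : MosStmt) (hmoi : MoiStmt)
    (hnle : NleStmt) : CorStmt := by
  intro p β hβ
  obtain ⟨κ, hκ, hexpκ⟩ := hexp p β hβ
  obtain ⟨ρ, hρ0, hρ2, hρ⟩ := hexpκ (κ / 36) (by positivity)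
  obtain ⟨τ₀, CF, hτ₀, hCF, hF⟩ := hfix
  obtain ⟨CN, hCN, hN⟩ := hnle
  have hm := msig_pos
  have hsm : 0 < √msig := Real.sqrt_pos.2 hm
  have hp : ‖(p : E5)‖ = 1 := S4_norm p
  have hβc : Continuous β := hβ.1.continuous
  set g : S4 → ℝ := fun x => β ⟪(p : E5), (x : E5)⟫_ℝ with hg
  have hgc : Continuous g := hβc.comp (continuous_const.inner continuous_subtype_val)
  set Cg : ℝ := 3 * (1 + N2 g) with hCg
  have hCg1 : 0 < Cg := by
    have := N2_nonneg g
    positivity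
  set C₃ : ℝ := CN * ((CF + CF ^ 2) * Cg ^ 2) + 1 with hC₃
  have hC₃p : 0 < C₃ := by positivity
  -- the constants
  set c₀ : ℝ := min 1 (κ * ρ / (108 * √msig)) with hc₀
  have hc₀p : 0 < c₀ := lt_min one_pos (by positivity)
  set e₀ : ℝ := min (τ₀ / Cg) (min (1 / (4 * (CF * Cg))) (κ * ρ / (36 * C₃))) with he₀
  have he₀p : 0 < e₀ := lt_min (by positivity) (lt_min (by positivity) (by positivity))
  refine ⟨e₀, c₀, he₀p, hc₀p, ?_⟩
  intro e q he hee hqc hqN
  have he1 : Cg * e ≤ τ₀ := by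
    have h1 : e ≤ τ₀ / Cg := hee.trans (min_le_left _ _)
    rw [le_div_iff₀ hCg1] at h1
    linarith
  have he2 : CF * (Cg * e) ≤ 1 / 4 := by
    have h1 : e ≤ 1 / (4 * (CF * Cg)) := hee.trans ((min_le_right _ _).trans (min_le_left _ _))
    rw [le_div_iff₀ (by positivity)] at h1
    linarith
  have he3 : C₃ * e ≤ κ * ρ / 36 := by
    have h1 : e ≤ κ * ρ / (36 * C₃) := hee.trans ((min_le_right _ _).trans (min_le_right _ _))
    rw [le_div_iff₀ (by positivity)] at h1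
    linarith
  have hc1 : √msig * (3 * c₀) ≤ κ * ρ / 36 := by
    have h1 : c₀ ≤ κ * ρ / (108 * √msig) := min_le_right _ _
    rw [le_div_iff₀ (by positivity)] at h1
    linarith
  have hc2 : c₀ ≤ 1 := min_le_left _ _
  -- the functions on the closed ball
  set S : Set E5 := Metric.closedBall 0 ρ with hS
  have hSn : ∀ b ∈ S, ‖b‖ ≤ ρ := fun b hb => mem_closedBall_zero_iff.1 hb
  have hS1 : ∀ b ∈ S, ‖b‖ < 1 := fun b hb => by
    have := hSn b hb
    linarith
  have hmobc : ContinuousOn (fun z : E5 × S4 => mob z.1 z.2) (S ×ˢ univ) :=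
    hmos.1.mono fun z hz => hS1 z.1 hz.1
  have hmobb : ∀ b ∈ S, Continuous (mob b) := fun b hb => slice_cont mob hmobc hb
  set qb : E5 → S4 → ℝ := fun b x => q (mob b x) with hqb
  have hqbc : ContinuousOn (fun z : E5 × S4 => qb z.1 z.2) (S ×ˢ univ) :=
    hqc.comp_continuousOn hmobc
  have hqb1 : ∀ b ∈ S, Continuous (qb b) := fun b hb => hqc.comp (hmobb b hb)
  have hl2 : ∀ b ∈ S, ∀ r : S4 → ℝ, Continuous r → N2 (fun x => r (mob b x)) ≤ 3 * N2 r := by
    intro b hb r hr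
    have h1 := hl2b b r (hS1 b hb) hr
    have h2 : (1 + ‖b‖) / (1 - ‖b‖) ≤ 3 := by
      have h3 := hSn b hb
      rw [div_le_iff₀ (by linarith)]
      linarith
    exact h1.trans (mul_le_mul_of_nonneg_right h2 (N2_nonneg _))
  have hqN2 : N2 q ≤ (1 + N2 g) * e := by
    have h1 : q = fun x => (q x - e * g x) + e * g x := by
      ext x
      ring
    have h2 : Continuous fun x => q x - e * g x := hqc.sub (continuous_const.mul hgc)
    have h3 : Continuous fun x => e * g x := continuous_const.mul hgc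
    have h4 := N2_add h2 h3
    rw [← h1, N2_smul he.le] at h4
    have h5 : N2 (fun x => q x - e * g x) ≤ c₀ * e := hqN
    have h6 : c₀ * e ≤ 1 * e := mul_le_mul_of_nonneg_right hc2 he.le
    linarith
  have hqbN : ∀ b ∈ S, N2 (qb b) ≤ Cg * e := by
    intro b hb
    have h1 := hl2 b hb q hqc
    have h2 : Cg * e = 3 * ((1 + N2 g) * e) := by rw [hCg]; ring
    rw [h2]
    exact h1.trans (by linarith)
  obtain ⟨H, hHc, hHb, hHR, hHeq⟩ := hF S qb (Cg * e) hqbc (by positivity) he1 hqbN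
  set R : ℝ := CF * (Cg * e) with hR
  have hR0 : 0 ≤ R := by positivity
  set B : E5 → E5 := fun b => ∫ y : S4, Nn (qb b) (H b) y • (y : E5) ∂sig with hB
  have hBc : ContinuousOn B S := by
    refine continuousOn_integral_of_compact_support
      (f := fun (b : E5) (y : S4) => Nn (qb b) (H b) y • (y : E5)) isCompact_univ ?_ ?_
    · show ContinuousOn (fun z : E5 × S4 => Nn (qb z.1) (H z.1) z.2 • (z.2 : E5)) (S ×ˢ univ)
      have h1 : Continuous fun z : E5 × S4 => (z.2 : E5) :=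
        continuous_subtype_val.comp continuous_snd
      have h2 : ContinuousOn (fun z : E5 × S4 => Real.exp (4 * H z.1 z.2)) (S ×ˢ univ) :=
        Real.continuous_exp.comp_continuousOn (continuousOn_const.mul hHc)
      have h3 : ContinuousOn (fun z : E5 × S4 =>
        (6 + qb z.1 z.2) * Real.exp (4 * H z.1 z.2) - 6 - 24 * H z.1 z.2) (S ×ˢ univ) :=
        (((continuousOn_const.add hqbc).mul h2).sub continuousOn_const).sub
        (continuousOn_const.mul hHc)
      exact ContinuousOn.smul h3 h1.continuousOn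
    · intro b x _ hx
      exact absurd (mem_univ x) hx
  have hBest : ∀ b ∈ S, ‖e⁻¹ • B b - Mlin κ (p : E5) b‖ ≤ κ * ρ / 12 := by
    intro b hb
    have h1 := (hN (qb b) (H b) (H b) R 0 (hqb1 b hb) (hHb b hb) (hHb b hb) hR0 he2
      (hHR b hb) (hHR b hb) (fun x => by simp)).2.2
    have h2 : CN * (R * N2 (qb b) + R ^ 2) ≤ C₃ * e * e := by
      have h3 : R * N2 (qb b) ≤ R * (Cg * e) := mul_le_mul_of_nonneg_left (hqbN b hb) hR0
      have h4 : R * (Cg * e) + R ^ 2 = (CF + CF ^ 2) * Cg ^ 2 * e * e := by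
        rw [hR]
        ring
      calc CN * (R * N2 (qb b) + R ^ 2) ≤ CN * (R * (Cg * e) + R ^ 2) := by gcongr
        _ = CN * ((CF + CF ^ 2) * Cg ^ 2) * e * e := by rw [h4]; ring
        _ ≤ C₃ * e * e := by
          have h5 : CN * ((CF + CF ^ 2) * Cg ^ 2) ≤ C₃ := by rw [hC₃]; linarith
          gcongr
    -- the linear part
    have hrc : Continuous fun x => q x - e * g x := hqc.sub (continuous_const.mul hgc)
    have h3 : ‖(∫ y : S4, qb b y • (y : E5) ∂sig) -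
        e • ∫ y : S4, g (mob b y) • (y : E5) ∂sig‖ ≤ √msig * (3 * (c₀ * e)) := by
      have h4 : (∫ y : S4, qb b y • (y : E5) ∂sig) - e • ∫ y : S4, g (mob b y) • (y : E5) ∂sig =
          ∫ y : S4, (fun x => (fun x => q x - e * g x) (mob b x)) y • (y : E5) ∂sig := by
        have i1 := int_smul (hqb1 b hb)
        have i2 := int_smul (hgc.comp (hmobb b hb))
        have i3 : Integrable (fun y : S4 => e • (g (mob b y) • (y : E5))) sig := i2.smul e
        rw [← integral_smul, ← integral_sub i1 i3]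
        refine integral_congr_ae (Eventually.of_forall fun y => ?_)
        show q (mob b y) • (y : E5) - e • (g (mob b y) • (y : E5)) =
          (q (mob b y) - e * g (mob b y)) • (y : E5)
        rw [sub_smul, mul_smul]
      rw [h4]
      refine (norm_integral_smul_le (hrc.comp (hmobb b hb))).trans ?_
      have h5 := hl2 b hb _ hrc
      have h6 : N2 (fun x => q x - e * g x) ≤ c₀ * e := hqN
      refine mul_le_mul_of_nonneg_left ?_ hsm.le
      exact h5.trans (by linarith)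
    have h4 := hρ b (hSn b hb)
    have h5 : e⁻¹ • B b - Mlin κ (p : E5) b =
        e⁻¹ • (B b - ∫ y : S4, qb b y • (y : E5) ∂sig) +
        e⁻¹ • ((∫ y : S4, qb b y • (y : E5) ∂sig) -
          e • ∫ y : S4, g (mob b y) • (y : E5) ∂sig) +
        ((∫ y : S4, g (mob b y) • (y : E5) ∂sig) - Mlin κ (p : E5) b) := by
      rw [smul_sub, smul_sub, smul_smul, inv_mul_cancel₀ he.ne', one_smul]
      abel
    have hei : 0 < e⁻¹ := inv_pos.2 he
    have h6 : ‖e⁻¹ • (B b - ∫ y : S4, qb b y • (y : E5) ∂sig)‖ ≤ κ * ρ / 36 := by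
      rw [norm_smul, Real.norm_of_nonneg hei.le]
      calc e⁻¹ * ‖B b - ∫ y : S4, qb b y • (y : E5) ∂sig‖ ≤ e⁻¹ * (C₃ * e * e) :=
            mul_le_mul_of_nonneg_left (h1.trans h2) hei.le
        _ = C₃ * e := by field_simp
        _ ≤ κ * ρ / 36 := he3
    have h7 : ‖e⁻¹ • ((∫ y : S4, qb b y • (y : E5) ∂sig) -
          e • ∫ y : S4, g (mob b y) • (y : E5) ∂sig)‖ ≤ κ * ρ / 36 := by
      rw [norm_smul, Real.norm_of_nonneg hei.le]
      calc e⁻¹ * ‖(∫ y : S4, qb b y • (y : E5) ∂sig) -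
            e • ∫ y : S4, g (mob b y) • (y : E5) ∂sig‖ ≤ e⁻¹ * (√msig * (3 * (c₀ * e))) :=
            mul_le_mul_of_nonneg_left h3 hei.le
        _ = √msig * (3 * c₀) := by field_simp
        _ ≤ κ * ρ / 36 := hc1
    have h8 : ‖(∫ y : S4, g (mob b y) • (y : E5) ∂sig) - Mlin κ (p : E5) b‖ ≤ κ * ρ / 36 := by
      refine (le_trans h4 ?_)
      calc κ / 36 * ‖b‖ ≤ κ / 36 * ρ := mul_le_mul_of_nonneg_left (hSn b hb) (by positivity)
        _ = κ * ρ / 36 := by ring
    rw [h5]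
    refine (norm_add_le _ _).trans ?_
    have h9 := norm_add_le (e⁻¹ • (B b - ∫ y : S4, qb b y • (y : E5) ∂sig))
      (e⁻¹ • ((∫ y : S4, qb b y • (y : E5) ∂sig) -
          e • ∫ y : S4, g (mob b y) • (y : E5) ∂sig))
    linarith
  -- Brouwer
  obtain ⟨b, hb, hfb⟩ := Pool.Agent.Common_Brouwer.schauder (K := S)
    (isCompact_closedBall (0 : E5) ρ) (convex_closedBall (0 : E5) ρ)
    ⟨0, by rw [hS, Metric.mem_closedBall, dist_self]; exact hρ0.le⟩
    (f := fun b => b - Minv κ (p : E5) (e⁻¹ • B b))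
    (continuousOn_id.sub ((continuous_Minv κ (p : E5)).comp_continuousOn
      (hBc.const_smul e⁻¹)))
    (by
      intro b hb
      have h1 : b - Minv κ (p : E5) (e⁻¹ • B b) =
          -Minv κ (p : E5) (e⁻¹ • B b - Mlin κ (p : E5) b) := by
        rw [Minv_sub, Minv_Mlin hκ.ne' hp]
        abel
      show b - Minv κ (p : E5) (e⁻¹ • B b) ∈ S
      rw [hS, mem_closedBall_zero_iff, h1, norm_neg]
      calc ‖Minv κ (p : E5) (e⁻¹ • B b - Mlin κ (p : E5) b)‖
          ≤ 9 / κ * ‖e⁻¹ • B b - Mlin κ (p : E5) b‖ := norm_Minv_le hκ hp _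
        _ ≤ 9 / κ * (κ * ρ / 12) :=
          mul_le_mul_of_nonneg_left (hBest b hb) (by positivity)
        _ = 3 / 4 * ρ := by
          field_simp
          norm_num
        _ ≤ ρ := by linarith)
  have hB0 : B b = 0 := by
    have h1 : Minv κ (p : E5) (e⁻¹ • B b) = 0 := by
      have h2 : b - Minv κ (p : E5) (e⁻¹ • B b) = b := hfb
      exact sub_eq_self.1 h2
    have h2 := eq_zero_of_Minv hκ.ne' hp h1
    rcases smul_eq_zero.1 h2 with h3 | h3
    · exact absurd h3 (inv_ne_zero he.ne')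
    · exact h3
  have hIE := finish hker hrea hxis hsym (hqb1 b hb) (hHb b hb) (hHeq b hb) hB0
  exact hmoi b (fun x => 6 + q x) (H b) (hS1 b hb) (continuous_const.add hqc) hIE

end Pool.Agent.FLX.H40
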