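import Pool.Agent.FLX.Stmts

/-!
# Linearity of the Green operator, the mean value, the `L²` norm
-/

set_option autoImplicit false

open scoped InnerProductSpace Topology ContDiff Manifold
open MeasureTheory Filter Set

noncomputable section

namespace Pool.Agent.FLX.H40

open Pool.Agent.Helper42_Paneitz Pool.Agent.Helper82_Vir Pool.Agent.FLX

theorem cont_of_ck {k : ℕ} {u : S4 → ℝ} (hu : CkS k u) : Continuous u := by
  rw [continuous_iff_continuousAt]
  intro x
  have h1 : ContinuousAt (radialExt u) (x : E5) := (hu x (S4_ne_zero x)).continuousAt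
  have h2 : ContinuousAt (fun y : S4 => radialExt u (y : E5)) x :=
    ContinuousAt.comp (g := radialExt u) (f := fun y : S4 => (y : E5)) h1
      continuous_subtype_val.continuousAt
  have h3 : (fun y : S4 => radialExt u (y : E5)) = u := funext fun y => radialExt_coe u y
  rwa [h3] at h2

/-! ### mean value -/

theorem avg_add {f g : S4 → ℝ} (hf : Continuous f) (hg : Continuous g) :
    avg (fun x => f x + g x) = avg f + avg g := by
  unfold avg
  rw [integral_add (integrable_cont hf) (integrable_cont hg), add_div]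

theorem avg_smul (c : ℝ) (f : S4 → ℝ) : avg (fun x => c * f x) = c * avg f := by
  unfold avg
  rw [integral_const_mul, mul_div_assoc]

theorem avg_sub {f g : S4 → ℝ} (hf : Continuous f) (hg : Continuous g) :
    avg (fun x => f x - g x) = avg f - avg g := by
  unfold avg
  rw [integral_sub (integrable_cont hf) (integrable_cont hg), sub_div]

theorem avg_const (c : ℝ) : avg (fun _ => c) = c := by
  unfold avg
  rw [integral_const_sig, mul_div_cancel_left₀ _ msig_pos.ne']

/-! ### the `L²` norm -/

theorem N2_nonneg (f : S4 → ℝ) : 0 ≤ N2 f := Real.sqrt_nonneg _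

theorem int_sq_nonneg (f : S4 → ℝ) : 0 ≤ ∫ y, f y ^ 2 ∂sig := integral_nonneg fun _ => sq_nonneg _

theorem N2_sq (f : S4 → ℝ) : N2 f ^ 2 = ∫ y, f y ^ 2 ∂sig := Real.sq_sqrt (int_sq_nonneg f)

/-- Cauchy-Schwarz -/
theorem cs {f g : S4 → ℝ} (hf : Continuous f) (hg : Continuous g) :
    |∫ y, f y * g y ∂sig| ≤ N2 f * N2 g := by
  have hA := int_sq_nonneg f
  have hB := int_sq_nonneg g
  have key : ∀ t : ℝ, 0 ≤ (∫ y, g y ^ 2 ∂sig) * (t * t) + (2 * ∫ y, f y * g y ∂sig) * t +
      ∫ y, f y ^ 2 ∂sig := by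
    intro t
    have h1 : 0 ≤ ∫ y, (f y + t * g y) ^ 2 ∂sig := integral_nonneg fun _ => sq_nonneg _
    have h2 : ∫ y, (f y + t * g y) ^ 2 ∂sig =
        (∫ y, f y ^ 2 ∂sig) + (2 * t) * (∫ y, f y * g y ∂sig) + (t * t) * ∫ y, g y ^ 2 ∂sig := by
      rw [← integral_const_mul, ← integral_const_mul, ← integral_add, ← integral_add]
      · congr 1
        ext y
        ring
      · exact (integrable_cont (hf.pow 2)).add ((integrable_cont (hf.mul hg)).const_mul _)
      · exact (integrable_cont (hg.pow 2)).const_mul _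
      · exact integrable_cont (hf.pow 2)
      · exact (integrable_cont (hf.mul hg)).const_mul _
    rw [h2] at h1
    linarith
  have hd := discrim_le_zero key
  unfold discrim at hd
  have h3 : (∫ y, f y * g y ∂sig) ^ 2 ≤ (N2 f * N2 g) ^ 2 := by
    rw [mul_pow, N2_sq, N2_sq]
    nlinarith
  exact abs_le_of_sq_le_sq h3 (mul_nonneg (N2_nonneg _) (N2_nonneg _))

theorem abs_avg_le {f : S4 → ℝ} (hf : Continuous f) : |avg f| ≤ N2 f / √msig := by
  have h1 := cs hf (continuous_const (y := (1 : ℝ)))
  simp only [mul_one] at h1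
  have h2 : N2 (fun _ : S4 => (1 : ℝ)) = √msig := by
    unfold N2
    simp only [one_pow]
    rw [integral_const_sig, mul_one]
  rw [h2] at h1
  have hm := msig_pos
  have hs : 0 < √msig := Real.sqrt_pos.2 hm
  unfold avg
  rw [abs_div, abs_of_pos hm, div_le_div_iff₀ hm hs]
  calc |∫ y, f y ∂sig| * √msig ≤ (N2 f * √msig) * √msig :=
        mul_le_mul_of_nonneg_right h1 hs.le
    _ = N2 f * msig := by rw [mul_assoc, Real.mul_self_sqrt hm.le]

theorem N2_le_of_bound {f : S4 → ℝ} (hf : Continuous f) {B : ℝ} (hB : 0 ≤ B)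
    (h : ∀ x, |f x| ≤ B) : N2 f ≤ √msig * B := by
  unfold N2
  have h1 : ∫ y, f y ^ 2 ∂sig ≤ msig * B ^ 2 := by
    rw [← integral_const_sig]
    refine integral_mono (integrable_cont (hf.pow 2)) (integrable_const _) fun y => ?_
    show f y ^ 2 ≤ B ^ 2
    rw [← sq_abs (f y)]
    exact pow_le_pow_left₀ (abs_nonneg _) (h y) 2
  calc √(∫ y, f y ^ 2 ∂sig) ≤ √(msig * B ^ 2) := Real.sqrt_le_sqrt h1
    _ = √msig * B := by rw [Real.sqrt_mul msig_pos.le, Real.sqrt_sq hB]

/-! ### the Green operator -/

theorem int_ell_mul (hell : ∀ x, Integrable (ell x) sig) {f : S4 → ℝ} (hf : Continuous f)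
    (x : S4) : Integrable (fun y => ell x y * f y) sig := by
  obtain ⟨C, -, hC⟩ := exists_bound hf
  exact (hell x).mul_bdd (c := C) hf.aestronglyMeasurable
    (Eventually.of_forall fun y => by simpa using hC y)

theorem K_add (hell : ∀ x, Integrable (ell x) sig) {f g : S4 → ℝ} (hf : Continuous f)
    (hg : Continuous g) (x : S4) : K (fun x => f x + g x) x = K f x + K g x := by
  unfold K
  rw [← add_div, avg_add hf hg]
  congr 1
  have i1 : Integrable (fun y => ell x y * (f y - avg f)) sig :=
    int_ell_mul hell (hf.sub continuous_const) x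
  have i2 : Integrable (fun y => ell x y * (g y - avg g)) sig :=
    int_ell_mul hell (hg.sub continuous_const) x
  rw [← integral_add i1 i2]
  congr 1
  ext y
  ring

theorem K_sub (hell : ∀ x, Integrable (ell x) sig) {f g : S4 → ℝ} (hf : Continuous f)
    (hg : Continuous g) (x : S4) : K (fun x => f x - g x) x = K f x - K g x := by
  unfold K
  rw [← sub_div, avg_sub hf hg]
  congr 1
  have i1 : Integrable (fun y => ell x y * (f y - avg f)) sig :=
    int_ell_mul hell (hf.sub continuous_const) x
  have i2 : Integrable (fun y => ell x y * (g y - avg g)) sig :=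
    int_ell_mul hell (hg.sub continuous_const) x
  rw [← integral_sub i1 i2]
  congr 1
  ext y
  ring

theorem K_smul (c : ℝ) (f : S4 → ℝ) (x : S4) : K (fun x => c * f x) x = c * K f x := by
  unfold K
  rw [avg_smul, mul_div_assoc', ← integral_const_mul]
  congr 2
  ext y
  ring

theorem K_const (c : ℝ) (x : S4) : K (fun _ => c) x = 0 := by
  unfold K
  rw [avg_const]
  simp

theorem int_inner_mul (x : S4) {h : S4 → ℝ} (hh : Continuous h) :
    Integrable (fun y : S4 => ⟪(x : E5), (y : E5)⟫_ℝ * h y) sig :=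
  integrable_cont ((continuous_const.inner continuous_subtype_val).mul hh)

theorem int_smul {h : S4 → ℝ} (hh : Continuous h) :
    Integrable (fun y : S4 => h y • (y : E5)) sig :=
  Continuous.integrable_of_hasCompactSupport (hh.smul continuous_subtype_val)
    (HasCompactSupport.of_compactSpace _)

theorem inner_integral_smul {h : S4 → ℝ} (hh : Continuous h) (v : E5) :
    ⟪v, ∫ y : S4, h y • (y : E5) ∂sig⟫_ℝ = ∫ y : S4, h y * ⟪v, (y : E5)⟫_ℝ ∂sig := by
  rw [← integral_inner (int_smul hh) v]
  congr 1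
  ext y
  rw [real_inner_smul_right]

theorem Aop_sub (hell : ∀ x, Integrable (ell x) sig) {f g : S4 → ℝ} (hf : Continuous f)
    (hg : Continuous g) (x : S4) : Aop (fun x => f x - g x) x = Aop f x - Aop g x := by
  unfold Aop
  rw [K_sub hell hf hg]
  have : ∫ y : S4, ⟪(x : E5), (y : E5)⟫_ℝ * (f y - g y) ∂sig =
      (∫ y : S4, ⟪(x : E5), (y : E5)⟫_ℝ * f y ∂sig) -
        ∫ y : S4, ⟪(x : E5), (y : E5)⟫_ℝ * g y ∂sig := by
    rw [← integral_sub (int_inner_mul x hf) (int_inner_mul x hg)]
    congr 1
    ext y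
    ring
  rw [this]
  ring

theorem continuous_inner_int {h : S4 → ℝ} (hh : Continuous h) :
    Continuous fun x : S4 => ∫ y : S4, ⟪(x : E5), (y : E5)⟫_ℝ * h y ∂sig := by
  have h1 : (fun x : S4 => ∫ y : S4, ⟪(x : E5), (y : E5)⟫_ℝ * h y ∂sig) =
      fun x : S4 => ⟪(x : E5), ∫ y : S4, h y • (y : E5) ∂sig⟫_ℝ := by
    ext x
    rw [inner_integral_smul hh]
    congr 1
    ext y
    ring
  rw [h1]
  exact continuous_subtype_val.inner continuous_const

theorem continuous_Aop (hrea : ReaStmt) {h : S4 → ℝ} (hh : Continuous h) :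
    Continuous (Aop h) := by
  unfold Aop
  exact (continuous_const.mul (cont_of_ck (hrea h hh))).sub
    (continuous_const.mul (continuous_inner_int hh))

theorem continuous_Nn {q h : S4 → ℝ} (hq : Continuous q) (hh : Continuous h) :
    Continuous (Nn q h) := by
  unfold Nn
  fun_prop

end Pool.Agent.FLX.H40
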